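import Mathlib
import Pool.Agent.Lib.MP_fcf965_nt.Main

/-!
# Monotonicity in the order of derivative of the maxima of zeta on the line `Re s = 1`

For all sufficiently large `T` and all positive integers `ℓ₁ < ℓ₂ ≤ log T / log log T`, the maximum
of `|ζ^(ℓ₁)(1 + it)|` over `T ≤ t ≤ 2T` is strictly smaller than the maximum of
`|ζ^(ℓ₂)(1 + it)|` over the same range.

Idea of the proof.  Write `M(ℓ)` for the maximum.  It is enough to show `M(ℓ) < M(ℓ+1)`.
* Lower bound: `M(ℓ) ≥ e^101 (5/4)^(ℓ+2) (ℓ+2)!`, uniformly; for large `ℓ` by testing against a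
  Dirichlet polynomial on the line `Re s = 5/4` (a mean value argument), for bounded `ℓ` by almost
  periodicity on a line `Re s = 1 + x`; both are transferred to the line `Re s = 1` by a
  maximum principle.
* If `M(ℓ+1) ≤ M(ℓ)`, take a point where `M(ℓ)` is attained, move by `4/5` along the line
  `Re s = 1` and then by `1/10` to the right.  In the quadrant with corner at the given point, the
  functions `ζ^(ℓ)` and `ζ^(ℓ+1)` are controlled by the maximum principle with the multiplier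
  `exp (n (log (c z) + (i/π) (log (c z))^2))`, which has modulus one on the vertical side and
  modulus `(c y)^n` on the horizontal side, where the trivial bound `e (k+1)! / y^(k+1)` is used.
  This gives `M(ℓ) ≤ 0.97 M(ℓ)`, a contradiction.
-/

namespace Pool.Agent.Results.MP_fcf965_nt.ZetaDerivMaxMono

open Pool.Agent.Lib.MP_fcf965_nt in
/-- For all large `T` and all positive integers `ℓ₁ < ℓ₂ ≤ log T / log log T`, the maxima `m₁`, `m₂`
of `|ζ^(ℓ₁)(1 + it)|` and of `|ζ^(ℓ₂)(1 + it)|` over `T ≤ t ≤ 2T` exist and satisfy `m₁ < m₂`. -/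
theorem result : ∃ T₀ : ℝ, ∀ T : ℝ, T₀ ≤ T → ∀ ℓ₁ ℓ₂ : ℕ, 1 ≤ ℓ₁ → ℓ₁ < ℓ₂ →
    (ℓ₂ : ℝ) ≤ Real.log T / Real.log (Real.log T) →
    ∃ m₁ m₂ : ℝ,
      IsGreatest ((fun t : ℝ => ‖iteratedDeriv ℓ₁ riemannZeta (1 + t * Complex.I)‖) ''
        Set.Icc T (2 * T)) m₁ ∧
      IsGreatest ((fun t : ℝ => ‖iteratedDeriv ℓ₂ riemannZeta (1 + t * Complex.I)‖) ''
        Set.Icc T (2 * T)) m₂ ∧
      m₁ < m₂ := by
  obtain ⟨T0, hT0⟩ := main_mono
  refine ⟨max T0 1, fun T hT l1 l2 h1 h12 hl2 => ?_⟩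
  have hTT : T0 ≤ T := (le_max_left _ _).trans hT
  have hTpos : 0 < T := lt_of_lt_of_le one_pos ((le_max_right _ _).trans hT)
  have hgr : ∀ l : ℕ, IsGreatest
      ((fun t : ℝ => ‖iteratedDeriv l riemannZeta (1 + t * Complex.I)‖) '' Set.Icc T (2 * T))
      (zmax l T) := by
    intro l
    obtain ⟨hle, t, ht1, ht2, hteq⟩ := zmax_spec l hTpos
    refine ⟨⟨t, ⟨ht1, ht2⟩, hteq⟩, ?_⟩
    rintro _ ⟨u, hu, rfl⟩
    exact hle u hu.1 hu.2
  exact ⟨zmax l1 T, zmax l2 T, hgr l1, hgr l2, hT0 T hTT l1 l2 h1 h12 hl2⟩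

end Pool.Agent.Results.MP_fcf965_nt.ZetaDerivMaxMono
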